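import Pool.Agent.Helper15.V7.RowB
import Pool.Agent.Helper35.V7.Row3

/-! Project V7. From the list to the data. -/

set_option autoImplicit false

namespace Pool.Agent.Helper15.V7

open IntermediateField Pool.Agent.Helper75.QC Pool.Agent.Helper75.WC Pool.Agent.Helper48.TT

variable {Ω L : Type} [Field Ω] [Field L]

theorem RowB.of_row3 (T : BaseTheory Ω L) {R M : Type} [Field R] [Field M] [Algebra Ω M]
    [Algebra R M] (h : Pool.Agent.Helper35.V7.Row3 Ω R M) : ∃ n, RowB T R M n := by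
  obtain ⟨n, α, β, x, y, z, w, hn, hn', hab, hα, hβ, hαβ, hz, hR, hM, hdeg, hw0, hwm, huni⟩ := h
  refine ⟨n, α, β, adjoin Ω {x, y, z}, x, y, w, hn, hn', hab, ?_, fun k =>
    Pool.Agent.Helper35.V7.alg3 hn hz hM hwm k, hR, ?_, hdeg, hw0, hwm,
    fun N _ _ g v s hv hs => ?_, fun ζ σ hζ hσ hσw ξ t hd hξn hξ ht => ?_⟩
  · rw [← hM]
    exact fg_adjoin_of_finite (Set.toFinite _)
  · rw [← Pool.Agent.Helper35.V7.gen3, hM]
  · rw [Pool.Agent.Helper35.V7.img3]
    exact huni N g v s hv hs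
  · rcases hξ with h4 | h4 | h4
    · exact absurd (hd _ h4) hα
    · exact absurd (hd _ h4) hβ
    · exact absurd (hd _ h4) hαβ

/-- **From the list to the data.** -/
theorem rowB_of_lst [IsAlgClosed Ω] (T : BaseTheory Ω L)
    {R M : Type} [Field R] [Field M] [Algebra Ω R] [Algebra Ω M] [Algebra R M]
    [IsScalarTower Ω R M] [FiniteDimensional R M] [IsGalois R M]
    (h : Pool.Agent.Helper35.V7.LstN Ω R M) : Uniruled Ω M 2 ∨ ∃ n, RowB T R M n := by
  rcases h with h | h
  · obtain ⟨n, -, hn⟩ := LstN.of_lstM h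
    exact (row_of_lst T hn).imp id fun h => ⟨n, RowB.of_rowN h⟩
  · exact Or.inr (RowB.of_row3 T h)

end Pool.Agent.Helper15.V7
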