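import Pool.Agent.Helper48.TT.Input

/-! Project V7. Cyclic covers `M = B(w)` of an arbitrary surface `B`, with a uniruled twist: the
input for `H 2 M`, and the action of the motivic Galois group. -/

set_option autoImplicit false

namespace Pool.Agent.Helper15.V7

open IntermediateField TensorProduct Pool.Agent.Helper75.QC Pool.Agent.Helper75.WC
  Pool.Agent.Helper15.WC Pool.Agent.Helper48.TT Pool.Agent.Helper15.QM

variable {Ω L : Type} [Field Ω] [Field L]

/-- The data of a cyclic cover `M / R` which are used: `M = B(w)`, `w ^ n ∈ B`, `R ⊆ B`. -/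
def RowB (T : BaseTheory Ω L) (R M : Type) [Field R] [Field M]
    [Algebra Ω M] [Algebra R M] (n : ℕ) : Prop :=
  ∃ (α β : ℕ) (B : IntermediateField Ω M) (x y w : M), 0 < n ∧ (n : Ω) ≠ 0 ∧
    (α.gcd β).Coprime n ∧ (⊤ : IntermediateField Ω M).FG ∧ (∀ k : M, k ∈ Acl Ω {x, y}) ∧
    (∀ a : R, algebraMap R M a ∈ B) ∧ adjoin Ω ((B : Set M) ∪ {w}) = ⊤ ∧
    Module.finrank B M = n ∧ w ≠ 0 ∧ w ^ n ∈ B ∧
    (∀ (N : Type) [Field N] [Algebra Ω N] (g : M →ₐ[Ω] N) (v s : N),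
      Transcendental g.fieldRange v → v ^ α * (1 - v) ^ β = s ^ n * g w ^ n →
      Uniruled Ω (adjoin Ω (g '' (B : Set M) ∪ {v, s}) : IntermediateField Ω N) 3) ∧
    (∀ (ζ : Ω) (σ : M →ₐ[Ω] M), IsPrimitiveRoot ζ n → (∀ k ∈ B, σ k = k) →
      σ w = algebraMap Ω M ζ * w → ∀ (ξ : L) (t : T.H 2 M), (∀ d : ℕ, ξ ^ d = 1 → n ∣ d) →
      ξ ^ n = 1 → (ξ ^ α = 1 ∨ ξ ^ β = 1 ∨ ξ ^ (α + β) = 1) → T.map 2 σ t = ξ • t → t = 0)

/-- the field generated by the images -/
theorem adjoin_image {M N : Type} [Field M] [Algebra Ω M] [Field N] [Algebra Ω N]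
    (g : M →ₐ[Ω] N) (S : Set M) (v s : N) :
    adjoin Ω (g '' (adjoin Ω S : Set M) ∪ {v, s}) = adjoin Ω (g '' S ∪ {v, s}) := by
  apply le_antisymm
  · rw [adjoin_le_iff]
    rintro r (⟨k, hk, rfl⟩ | hr)
    · have h2 : adjoin Ω S ≤ (adjoin Ω (g '' S ∪ {v, s})).comap g := by
        rw [adjoin_le_iff]
        intro k hk
        exact subset_adjoin _ _ (Or.inl ⟨k, hk, rfl⟩)
      exact h2 hk
    · exact subset_adjoin _ _ (Or.inr hr)
  · exact adjoin.mono _ _ _ (Set.union_subset_union_left _ (Set.image_mono (subset_adjoin _ _)))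

theorem adjoin_union {M : Type} [Field M] [Algebra Ω M] (S : Set M) (w : M) :
    adjoin Ω ((adjoin Ω S : Set M) ∪ {w}) = adjoin Ω (S ∪ {w}) := by
  apply le_antisymm
  · rw [adjoin_le_iff]
    rintro r (hr | hr)
    · exact adjoin.mono _ _ _ Set.subset_union_left hr
    · exact subset_adjoin _ _ (Or.inr hr)
  · exact adjoin.mono _ _ _ (Set.union_subset_union_left _ (subset_adjoin _ _))

/-- The data with `x`, `y`. -/
theorem RowB.of_rowN {T : BaseTheory Ω L} {R M : Type} [Field R] [Field M] [Algebra Ω M]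
    [Algebra R M] {n : ℕ} (h : RowN T R M n) : RowB T R M n := by
  obtain ⟨α, β, x, y, w, hn, hn', hab, hR, hM, hdeg, hw0, hwm, huni, hexc⟩ := h
  have hx : x ∈ adjoin Ω {x, y} := subset_adjoin _ _ (by simp)
  have hy : y ∈ adjoin Ω {x, y} := subset_adjoin _ _ (by simp)
  have hfin : FiniteDimensional (adjoin Ω {x, y}) M :=
    Module.finite_of_finrank_pos (by rw [hdeg]; exact hn)
  refine ⟨α, β, adjoin Ω {x, y}, x, y, w, hn, hn', hab, ?_, fun k =>
    Algebra.IsAlgebraic.isAlgebraic k, hR, ?_, hdeg, hw0, hwm, fun N _ _ g v s hv hs => ?_,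
    fun ζ σ hζ hσ hσw ξ t hd hξn hξ ht => hexc ζ σ hζ (hσ x hx) (hσ y hy) hσw ξ t hd hξn hξ ht⟩
  · rw [← hM]
    exact fg_adjoin_of_finite (Set.toFinite _)
  · rw [adjoin_union, ← hM]
    congr 1
    ext k
    simp only [Set.mem_union, Set.mem_insert_iff, Set.mem_singleton_iff]
    tauto
  · have h1 : adjoin Ω (g '' (adjoin Ω {x, y} : Set M) ∪ {v, s}) = adjoin Ω {g x, g y, v, s} := by
      rw [adjoin_image]
      congr 1
      ext k
      simp only [Set.image_insert_eq, Set.image_singleton, Set.mem_union, Set.mem_insert_iff,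
        Set.mem_singleton_iff]
      tauto
    rw [h1]
    exact huni N g v s hv hs

theorem prim_kummerB {K : Type} [Field K] [Algebra Ω K]
    (T : BaseTheory Ω L) (R : IntermediateField Ω K) (M : IntermediateField R K)
    [FiniteDimensional R M] (r : ℕ) {n : ℕ} (hn : 0 < n) (hn' : (n : Ω) ≠ 0) {ζ : Ω}
    (hζ : IsPrimitiveRoot ζ n) (B : IntermediateField Ω M) (w : M)
    (hR : ∀ a : R, algebraMap R M a ∈ B)
    (hgen : adjoin Ω ((B : Set M) ∪ {w}) = ⊤) (hdeg : Module.finrank B M = n)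
    (hw : w ^ n ∈ B) (hw0 : w ≠ 0) (s : T.H r M)
    (hs : Pool.Agent.Helper15.WC.IsPrim T R r M s) (hs0 : s ≠ 0) :
    ∃ (σ : M →ₐ[Ω] M) (ξ : L), (∀ k ∈ B, σ k = k) ∧
      σ w = algebraMap Ω M ζ * w ∧ ξ ^ n = 1 ∧ (∀ d : ℕ, ξ ^ d = 1 → n ∣ d) ∧
      T.map r σ s = ξ • s := by
  classical
  obtain ⟨σ, hσ, hσw⟩ := Pool.Agent.Helper15.QM.Gen.kummer_sigma hn hn' hζ.pow_eq_one
    B w hgen hw hdeg
  let σ' : M →ₐ[R] M :=
    { toRingHom := (σ : M →+* M)
      commutes' := fun a => hσ _ (hR a) }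
  let g : M ≃ₐ[R] M := AlgEquiv.ofBijective σ' (Algebra.IsAlgebraic.algHom_bijective σ')
  obtain ⟨ξ, h1, h2⟩ := hs g
  have hg : ((g : M →ₐ[R] M).restrictScalars Ω) = σ := by
    ext z
    rfl
  rw [hg] at h1
  have hpow : ∀ d : ℕ, (g ^ d) w = algebraMap Ω M ζ ^ d * w := by
    intro d
    induction d with
    | zero => simp
    | succ d ih =>
      have e1 : (g ^ (d + 1)) w = (g ^ d) (g w) := by rw [pow_succ, AlgEquiv.mul_apply]
      have e2 : g w = algebraMap Ω M ζ * w := hσw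
      have e3 : (g ^ d) (algebraMap Ω M ζ) = algebraMap Ω M ζ := by
        have : algebraMap Ω M ζ = algebraMap R M (algebraMap Ω R ζ) :=
          IsScalarTower.algebraMap_apply Ω R M ζ
        rw [this, AlgEquiv.commutes]
      rw [e1, e2, map_mul, ih, e3, pow_succ]
      ring
  have hdvd : ∀ d : ℕ, ξ ^ d = 1 → n ∣ d := by
    intro d hd
    have h3 := hpow d
    rw [h2 d hd] at h3
    have h4 : algebraMap Ω M (ζ ^ d) = 1 := by
      rw [map_pow]
      exact mul_right_cancel₀ hw0 (h3.symm.trans (one_mul w).symm)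
    have h5 : ζ ^ d = 1 := by
      apply (algebraMap Ω M).injective
      rw [h4, map_one]
    exact hζ.dvd_of_pow_eq_one d h5
  have hσn : σ ^ n = 1 := sigma_order hζ.pow_eq_one B w hgen σ ⟨hσ, hσw⟩
  have hξn : ξ ^ n = 1 := by
    have h7 : ∀ k : ℕ, (T.map r σ ^ k) s = ξ ^ k • s := by
      intro k
      induction k with
      | zero => simp
      | succ k ih =>
        rw [pow_succ, Module.End.mul_apply, h1, map_smul, ih, smul_smul, pow_succ, mul_comm]
    have h10 := h7 n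
    have h11 : T.map r σ ^ n = 1 := by
      rw [← tmap_pow75, hσn]
      exact T.map_id r M
    rw [h11] at h10
    have h13 : (ξ ^ n - 1) • s = 0 := by
      rw [sub_smul, ← h10, one_smul]
      exact sub_self _
    exact sub_eq_zero.1 ((smul_eq_zero.1 h13).resolve_right hs0)
  exact ⟨σ, ξ, hσ, hσw, hξn, hdvd, h1⟩

/-- **The input for a cyclic cover.** -/
theorem exists_preB (T : BaseTheory Ω L) [IsAlgClosed Ω] [CharZero L] [IsAlgClosed L] {K : Type}
    [Field K] [Algebra Ω K] (R : IntermediateField Ω K) (M : IntermediateField R K)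
    [FiniteDimensional R M] {n : ℕ} (h : RowB T R M n) {V : Type} [AddCommGroup V] [Module L V]
    (s : V →ₗ[L] T.H 2 M) (c : (M ≃ₐ[R] M) → L)
    (hc : ∀ (g : M ≃ₐ[R] M) t, T.map 2 ((g : M →ₐ[R] M).restrictScalars Ω) (s t) = c g • s t)
    (hc1 : ∀ (g : M ≃ₐ[R] M) (d : ℕ), c g ^ d = 1 → g ^ d = 1) (hs0 : s ≠ 0) :
    ∃ (C N : Type) (_ : Field C) (_ : Algebra Ω C) (_ : Field N) (_ : Algebra Ω N)
      (a : M →ₐ[Ω] N) (b : C →ₐ[Ω] N) (x y : M) (α β : ℕ) (ζ : Ω) (v u : C) (τ : C →ₐ[Ω] C)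
      (ξ : L) (z : T.H 1 C), IsPre T n s a b x y α β ζ v u τ ξ z := by
  classical
  obtain ⟨α, β, B, x, y, w, hn, hn', hab, hfg, hxy, hR, hM, hdeg, hw0, hwm, huni, hexc⟩ := h
  obtain ⟨t₀, ht₀⟩ : ∃ t, s t ≠ 0 := by
    by_contra h
    push Not at h
    exact hs0 (LinearMap.ext h)
  have : NeZero (n : Ω) := ⟨hn'⟩
  obtain ⟨ζ, hζ⟩ : ∃ ζ : Ω, IsPrimitiveRoot ζ n :=
    HasEnoughRootsOfUnity.exists_primitiveRoot Ω n
  obtain ⟨σ, ξ, hσ, hσw, hξn, hξd, hξ⟩ := prim_kummerB T R M 2 hn hn'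
    hζ B w hR hM hdeg hwm hw0 (s t₀) (fun g => ⟨c g, hc g t₀, hc1 g⟩) ht₀
  -- the same eigenvalue for all classes
  let σ' : M →ₐ[R] M := { toRingHom := (σ : M →+* M), commutes' := fun a => hσ _ (hR a) }
  let g₀ : M ≃ₐ[R] M := AlgEquiv.ofBijective σ' (Algebra.IsAlgebraic.algHom_bijective σ')
  have hg₀ : ((g₀ : M →ₐ[R] M).restrictScalars Ω) = σ := AlgHom.ext fun _ => rfl
  have hξ' : ∀ t, T.map 2 σ (s t) = ξ • s t := by
    have e1 : c g₀ = ξ := by
      have e2 := hc g₀ t₀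
      rw [hg₀, hξ] at e2
      have e3 : (ξ - c g₀) • s t₀ = 0 := by rw [sub_smul, e2, sub_self]
      exact (sub_eq_zero.1 ((smul_eq_zero.1 e3).resolve_right ht₀)).symm
    intro t
    have e2 := hc g₀ t
    rwa [hg₀, e1] at e2
  have hnex : ¬ (ξ ^ α = 1 ∨ ξ ^ β = 1 ∨ ξ ^ (α + β) = 1) := fun h =>
    ht₀ (hexc ζ σ hζ hσ hσw ξ (s t₀) hξd hξn h hξ)
  have hξ0 : ξ ≠ 0 := by
    rintro rfl
    rw [zero_pow hn.ne'] at hξn
    exact zero_ne_one hξn
  have hinv : ∀ j : ℕ, ξ ^ j ≠ 1 → ξ⁻¹ ^ j ≠ 1 := by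
    intro j hj h
    apply hj
    rwa [inv_pow, inv_eq_one] at h
  obtain ⟨C, N, iC, jC, iN, jN, v, u, a, b, hv, hu, hC, hbv, hNg, hsig, -, -⟩ :=
    Pool.Agent.Helper35.TD.exists_curve_ab (Ω := Ω) (α := α) (β := β) hn hab M
  obtain ⟨τ, hτ⟩ := hsig ζ hζ.pow_eq_one
  have hfinC : (⊤ : IntermediateField Ω C).FG := by
    rw [← hC]
    exact fg_adjoin_of_finite (Set.toFinite _)
  obtain ⟨z, hz0, hz⟩ := T.curve C n α β ζ v u τ hn' hζ hv hu hC hτ.1 hτ.2 ξ⁻¹
    (by rw [inv_pow, hξn, inv_one]) (hinv _ fun h => hnex (Or.inl h))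
    (hinv _ fun h => hnex (Or.inr (Or.inl h))) (hinv _ fun h => hnex (Or.inr (Or.inr h)))
  have huni' : ∀ z : T.H 3 (adjoin Ω (a '' (B : Set M) ∪ {b v, b u / a w}) :
      IntermediateField Ω N), z = 0 := by
    apply T.uniruled
    refine huni N a (b v) (b u / a w) hbv ?_
    have h2 : b u ^ n = b v ^ α * (1 - b v) ^ β := by
      rw [← map_pow, hu, map_mul, map_pow, map_pow, map_sub, map_one]
    have h3 : a w ≠ 0 := fun h => hw0 (a.injective (h.trans (map_zero a).symm))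
    rw [div_pow, h2, div_mul_cancel₀ _ (pow_ne_zero _ h3)]
  refine ⟨C, N, iC, jC, iN, jN, a, b, x, y, α, β, ζ, v, u, τ, ξ⁻¹, z,
    ⟨hfg, hfinC, hxy, mem_Acl_of hn v u hu hC, hbv, hn', hζ, hv, hu, hC, hτ.1, hτ.2,
      by rw [inv_pow, hξn, inv_one], fun d hd => ?_, ?_, hz0, hz, fun t =>
      Pool.Agent.Helper15.QM.Gen.cross_zero T hn hn' hζ a b B w v u hM hC hNg hw0 hwm σ
        ⟨hσ, hσw⟩ τ hτ huni' ξ hξ0 (s t) (hξ' t) z hz⟩⟩
  · by_contra h
    exact hinv d (fun h1 => h (hξd d h1)) hd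
  · -- `n` does not divide `2`
    apply hinv
    intro h
    have h8 := hξd 2 h
    have h9 : n = 1 ∨ n = 2 := by
      have := Nat.le_of_dvd (by norm_num) h8
      omega
    rcases h9 with rfl | rfl
    · apply hnex
      rw [pow_one] at hξn
      exact Or.inl (by rw [hξn, one_pow])
    · have h10 : α % 2 = 0 ∨ β % 2 = 0 ∨ (α + β) % 2 = 0 := by omega
      have h11 : ∀ k : ℕ, k % 2 = 0 → ξ ^ k = 1 := by
        intro k hk
        obtain ⟨m, rfl⟩ := Nat.dvd_of_mod_eq_zero hk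
        rw [pow_mul, h, one_pow]
      rcases h10 with h12 | h12 | h12
      · exact hnex (Or.inl (h11 _ h12))
      · exact hnex (Or.inr (Or.inl (h11 _ h12)))
      · exact hnex (Or.inr (Or.inr (h11 _ h12)))

/-- **The input for an abelian cover.** `K / R` is finite and abelian, and for the cyclic
subextensions `M / R` the surface is uniruled or in the list (`RowB`). -/
theorem cover_preB (T : BaseTheory Ω L) [IsAlgClosed Ω] [CharZero L] [IsAlgClosed L] {K : Type}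
    [Field K] [Algebra Ω K] (R : IntermediateField Ω K) [FiniteDimensional R K] [IsGalois R K]
    (hab : ∀ g h : K ≃ₐ[R] K, g * h = h * g) (P : ℕ → Prop)
    (hM : ∀ M : IntermediateField R K, IsCyclic (M ≃ₐ[R] M) →
      Uniruled Ω M 2 ∨ ∃ n, P n ∧ RowB T R M n) :
    ∃ (m : ℕ) (M : Fin m → IntermediateField R K) (s : ∀ i, T.H 2 K →ₗ[L] T.H 2 (M i)),
      (∀ t, ∑ i, T.map 2 (incl R (M i)) (s i t) = t) ∧
      (∀ i (φ : T.H 2 K →ₗ[L] T.H 2 K) (ψ : T.H 2 (M i) →ₗ[L] T.H 2 (M i)),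
        (∀ (h : K →ₐ[Ω] K) t, T.map 2 h (φ t) = φ (T.map 2 h t)) →
        (∀ t, T.map 2 (incl R (M i)) (ψ t) = φ (T.map 2 (incl R (M i)) t)) →
        ∀ t, ψ (s i t) = s i (φ t)) ∧
      ∀ i, s i = 0 ∨ ∃ n, P n ∧
        ∃ (C N : Type) (_ : Field C) (_ : Algebra Ω C) (_ : Field N) (_ : Algebra Ω N)
          (a : M i →ₐ[Ω] N) (b : C →ₐ[Ω] N) (x y : M i) (α β : ℕ) (ζ : Ω) (v u : C)
          (τ : C →ₐ[Ω] C) (ξ : L) (z : T.H 1 C), IsPre T n (s i) a b x y α β ζ v u τ ξ z := by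
  classical
  obtain ⟨m, χ, E, hsum, hE, hcomm⟩ := exists_projectors hab (galRep T R 2)
  have hl := fun i => exists_lift T R 2 (χ i) (E i) (fun g t => hE i g t)
  choose M hcyc s c hs hc hc1 using hl
  refine ⟨m, M, s, fun t => ?_, fun i φ ψ hφ hψ t => ?_, fun i => ?_⟩
  · exact (Finset.sum_congr rfl fun i _ => hs i t).trans (hsum t)
  · apply T.inj 2 _ (incl_alg R (M i))
    rw [hψ, hs, hs]
    exact hcomm i φ (fun g v => (hφ _ v).symm) t
  · by_cases h0 : s i = 0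
    · exact Or.inl h0
    rcases hM (M i) (hcyc i) with h | ⟨n, hn, h⟩
    · exact Or.inl (LinearMap.ext fun t => T.uniruled 2 (M i) h (s i t))
    · exact Or.inr ⟨n, hn, exists_preB T R (M i) h (s i) (c i) (hc i) (hc1 i) h0⟩

section act

variable {G : Type} [Group G] (T : MotivicTheory Ω L G)

/-- Elements which act trivially on `H 1` and on the Tate motive. -/
theorem fix_pre {M C N V : Type} [Field M] [Algebra Ω M] [AddCommGroup V] [Module L V] [Field C]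
    [Algebra Ω C] [Field N] [Algebra Ω N] {n : ℕ} {s : V →ₗ[L] T.H 2 M} {a : M →ₐ[Ω] N}
    {b : C →ₐ[Ω] N} {x y : M} {α β : ℕ} {ζ : Ω} {v u : C} {τ : C →ₐ[Ω] C} {ξ : L} {z : T.H 1 C}
    (P : IsPre T.toBaseTheory n s a b x y α β ζ v u τ ξ z) (γ : G)
    (hγ : T.IsTrivialOnAbelian γ) (t : V) : T.act 2 M γ (s t) = s t := by
  obtain ⟨D, iD, jD, g, hDf, heq, hker⟩ := T.gysin a b x y v P.fgM P.fgC P.algM P.algC P.trans
  obtain ⟨r, hr⟩ := (hker (s t ⊗ₜ z)).1 (by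
    rw [TensorProduct.lift.tmul]
    exact P.zero t)
  have h1 := heq γ r
  rw [hγ.2 D hDf r, hγ.1, inv_one, one_smul, hr, TensorProduct.map_tmul, hγ.2 C P.fgC z] at h1
  obtain ⟨ξ', hξ'⟩ : ∃ ξ' : Module.Dual L (T.H 1 C), ξ' z ≠ 0 := by
    by_contra hcon
    push Not at hcon
    exact P.ne ((Module.forall_dual_apply_eq_zero_iff L z).1 hcon)
  have h2 := congrArg (fun r => TensorProduct.rid L (T.H 2 M) (ξ'.lTensor (T.H 2 M) r)) h1
  simp only [LinearMap.lTensor_tmul, TensorProduct.rid_tmul] at h2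
  exact smul_right_injective _ hξ' h2

/-- **The action on primitive classes.** -/
theorem act_rowB [IsAlgClosed Ω] [CharZero L] [IsAlgClosed L] {K : Type} [Field K] [Algebra Ω K]
    (R : IntermediateField Ω K) (M : IntermediateField R K) [FiniteDimensional R M]
    (h : Uniruled Ω M 2 ∨ ∃ n, RowB T.toBaseTheory R M n) (γ : G) (hγ : T.IsTrivialOnAbelian γ)
    (s : T.H 2 M) (hs : Pool.Agent.Helper15.WC.IsPrim T.toBaseTheory R 2 M s) :
    T.act 2 M γ s = s := by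
  classical
  rcases h with h | ⟨n, h⟩
  · rw [T.uniruled 2 M h s, map_zero]
  by_cases hs0 : s = 0
  · rw [hs0, map_zero]
  choose c hc hc1 using hs
  obtain ⟨C, N, iC, jC, iN, jN, a, b, x, y, α, β, ζ, v, u, τ, ξ, z, P⟩ :=
    exists_preB T.toBaseTheory R M h (LinearMap.toSpanSingleton L (T.H 2 M) s) c
      (fun g t => by
        rw [LinearMap.toSpanSingleton_apply, map_smul, hc, smul_comm])
      (fun g d => hc1 g d) (fun h0 => hs0 (by
        have := LinearMap.congr_fun h0 1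
        rwa [LinearMap.toSpanSingleton_apply, one_smul] at this))
  have := fix_pre T P γ hγ 1
  rwa [LinearMap.toSpanSingleton_apply, one_smul] at this

end act

end Pool.Agent.Helper15.V7
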